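import Pool.Agent.Helper27.MC.Base

/-! Row CNT of the maximum cut proof (cubic graphs): counting the cut edges from both sides. -/

set_option autoImplicit false

namespace Pool.Agent.Helper4.MC

open Pool.Agent.Helper27.MC

section
variable {V : Type} [Fintype V] [DecidableEq V] (G : SimpleGraph V) [DecidableRel G.Adj]

/-- the sign of a vertex -/
def sgn (c : V → Bool) (v : V) : ℤ := if c v = true then -1 else 1

omit [DecidableEq V] in
/-- cut neighbours -/
theorem cut_nb (hG : G.IsRegularOfDegree 3) (c : V → Bool) (v : V) :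
    (3 : ℤ) - mu G c v = ∑ w, (if G.Adj v w ∧ c w ≠ c v then (1 : ℤ) else 0) := by
  have h1 : (Finset.univ.filter fun w => G.Adj v w).card = 3 := by
    rw [← SimpleGraph.neighborFinset_eq_filter]
    exact hG v
  have h2 := Finset.card_filter_add_card_filter_not (s := Finset.univ.filter fun w => G.Adj v w) (fun w => c w = c v)
  rw [Finset.filter_filter, Finset.filter_filter, h1] at h2
  have h3 : ∑ w, (if G.Adj v w ∧ c w ≠ c v then (1 : ℤ) else 0) =
      ((Finset.univ.filter fun w => G.Adj v w ∧ ¬ c w = c v).card : ℤ) := by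
    rw [Finset.card_filter]
    push_cast
    rfl
  rw [h3]
  have h4 : (mu G c v : ℤ) + ((Finset.univ.filter fun w => G.Adj v w ∧ ¬ c w = c v).card : ℤ) = 3 := by
    unfold mu
    exact_mod_cast h2
  linarith

omit [DecidableEq V] in
/-- the cut edges from both sides -/
theorem cut_sum (hG : G.IsRegularOfDegree 3) (c : V → Bool) : ∑ v, sgn c v * (3 - (mu G c v : ℤ)) = 0 := by
  have h1 : ∑ v, sgn c v * (3 - (mu G c v : ℤ)) =
      ∑ v, ∑ w, (if G.Adj v w ∧ c w ≠ c v then sgn c v else 0) := by
    refine Finset.sum_congr rfl fun v _ => ?_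
    rw [cut_nb G hG c v, Finset.mul_sum]
    refine Finset.sum_congr rfl fun w _ => ?_
    rw [mul_ite, mul_one, mul_zero]
  have h2 : ∑ v, ∑ w, (if G.Adj v w ∧ c w ≠ c v then sgn c v else 0) =
      - ∑ v, ∑ w, (if G.Adj v w ∧ c w ≠ c v then sgn c v else 0) := by
    refine (Finset.sum_comm (f := fun v w => if G.Adj v w ∧ c w ≠ c v then sgn c v else 0)).trans ?_
    rw [← Finset.sum_neg_distrib]
    refine Finset.sum_congr rfl fun v _ => ?_
    rw [← Finset.sum_neg_distrib]
    refine Finset.sum_congr rfl fun w _ => ?_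
    by_cases h : G.Adj w v ∧ c v ≠ c w
    · have h' : G.Adj v w ∧ c w ≠ c v := ⟨h.1.symm, h.2.symm⟩
      rw [if_pos h, if_pos h']
      unfold sgn
      have h3 := h.2
      rcases Bool.eq_false_or_eq_true (c v) with hv | hv <;> rcases Bool.eq_false_or_eq_true (c w) with hw | hw <;>
        simp_all
    · have h' : ¬ (G.Adj v w ∧ c w ≠ c v) := fun h3 => h ⟨h3.1.symm, h3.2.symm⟩
      rw [if_neg h, if_neg h', neg_zero]
  rw [h1]
  omega

theorem CNT_aux (hG : G.IsRegularOfDegree 3) (c : V → Bool) (hm : ∀ v, mu G c v ≤ 1) :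
    ((Finset.univ.filter (fun v => tS G c v)).card : ℤ) =
      (Finset.univ.filter (fun v => tQ G c v)).card + 3 * imb c := by
  have h1 := cut_sum G hG c
  have h2 : ∑ v, sgn c v * (3 - (mu G c v : ℤ)) = 3 * imb c - ∑ v, sgn c v * (mu G c v : ℤ) := by
    unfold imb
    rw [Finset.mul_sum, ← Finset.sum_sub_distrib]
    refine Finset.sum_congr rfl fun v _ => ?_
    unfold sgn
    ring
  have h3 : ∑ v, sgn c v * (mu G c v : ℤ) = ((Finset.univ.filter (fun v => tS G c v)).card : ℤ) -
      (Finset.univ.filter (fun v => tQ G c v)).card := by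
    rw [Finset.card_filter, Finset.card_filter]
    push_cast
    rw [← Finset.sum_sub_distrib]
    refine Finset.sum_congr rfl fun v _ => ?_
    have h4 := hm v
    have h5 : mu G c v = 0 ∨ mu G c v = 1 := by omega
    unfold sgn tS tQ
    rcases Bool.eq_false_or_eq_true (c v) with hv | hv <;> rcases h5 with h5 | h5 <;> simp [h5, hv]
  rw [h2, h3] at h1
  linarith

end

/-- row CNT -/
theorem CNT : ST_CNT := fun _ _ _ G _ hG c hm => CNT_aux G hG c hm

end Pool.Agent.Helper4.MC
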